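import Pool.Agent.C4U.Stmts

set_option autoImplicit false

namespace Pool.Agent.C4U.H37

open Pool.Agent.C4U

theorem dyn (hOPW : OpwStmt) : DynStmt := by
  intro B z S hS hz
  have hex : ∀ c : ℕ, ∃ s e : ℕ, 1 ≤ c → c = 2 ^ s * (2 * e + 1) := by
    intro c
    by_cases hc : 1 ≤ c
    · obtain ⟨s, m, hm, h⟩ := Nat.exists_eq_two_pow_mul_odd (n := c) (by omega)
      obtain ⟨e, he⟩ := hm
      exact ⟨s, e, fun _ => by rw [h, he]⟩
    · exact ⟨0, 0, fun h => absurd h hc⟩
  choose g h hgh using hex
  have hcard : (Finset.range (Nat.log 2 B + 1)).card = Nat.log 2 B + 1 := Finset.card_range _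
  rw [← hcard]
  refine Finset.card_le_card_of_injOn g ?_ ?_
  · intro c hc
    obtain ⟨h1, h2⟩ := hS c hc
    have h3 := hgh c h1
    have h4 : 2 ^ g c ≤ c := by
      calc 2 ^ g c = 2 ^ g c * 1 := (mul_one _).symm
        _ ≤ 2 ^ g c * (2 * h c + 1) := Nat.mul_le_mul_left _ (by omega)
        _ = c := h3.symm
    have h5 : g c ≤ Nat.log 2 B := Nat.le_log_of_pow_le (by norm_num) (h4.trans h2)
    exact Finset.mem_coe.2 (Finset.mem_range.2 (by omega))
  · intro c hc c' hc' hg
    have h1 := (hS c hc).1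
    have h1' := (hS c' hc').1
    have h3 := hgh c h1
    have h3' := hgh c' h1'
    have ho : o c = 2 ^ g c := by
      conv_lhs => rw [h3]
      exact hOPW (g c) (h c)
    have ho' : o c' = 2 ^ g c := by
      conv_lhs => rw [h3']
      rw [hg]
      exact hOPW (g c') (h c')
    rw [← hg] at h3'
    have hpos : 0 < 2 ^ g c := by positivity
    have hdiv : ∀ q : ℕ, 2 ^ g c * q ≤ z → z < 2 ^ g c * q + 2 ^ g c → z / 2 ^ g c = q := by
      intro q hq1 hq2
      refine Nat.div_eq_of_lt_le ?_ ?_
      · rw [mul_comm]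
        exact hq1
      · rw [Nat.succ_mul, mul_comm q]
        exact hq2
    have heq : h c = h c' := by
      rcases hz with hz | hz
      · obtain ⟨a1, a2⟩ := hz c hc
        obtain ⟨b1, b2⟩ := hz c' hc'
        rw [ho] at a2
        rw [ho'] at b2
        have e1 : 2 ^ g c * (2 * h c + 1) = 2 ^ g c * (2 * h c) + 2 ^ g c := by ring
        have e2 : 2 ^ g c * (2 * h c' + 1) = 2 ^ g c * (2 * h c') + 2 ^ g c := by ring
        have k1 := hdiv (2 * h c) (by omega) (by omega)
        have k2 := hdiv (2 * h c') (by omega) (by omega)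
        omega
      · obtain ⟨a1, a2⟩ := hz c hc
        obtain ⟨b1, b2⟩ := hz c' hc'
        rw [ho] at a2
        rw [ho'] at b2
        have k1 := hdiv (2 * h c + 1) (by omega) (by omega)
        have k2 := hdiv (2 * h c' + 1) (by omega) (by omega)
        omega
    rw [h3, h3', heq]

end Pool.Agent.C4U.H37
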